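import Pool.Agent.P8H64.AN.Law

/-!
# Orlov's conjecture and ranks: all or nothing

`𝒱` is a class of smooth projective geometrically irreducible varieties over the field `k` closed
under products, which contains varieties with the motives of the projective spaces (for example all
varieties), `C` the Chow groups with rational coefficients (in the form of their formal properties,
`IsChowProj`), and `H` a Weil cohomology theory with coefficients in a field of characteristic zero
(`IsWeilComm`: Poincare duality, Kunneth formula, cycle class maps, graded-commutativity; no
Lefschetz theorem). `ρ_i(X) = rk C X i` is the rank of the group of cycles of codimension `i` on `X`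
modulo numerical equivalence. `NumIsom C X Y` means that the motives of `X` and `Y` modulo numerical
equivalence are isomorphic, `ChowIso C X Y` that their Chow motives `h(X)` and `h(Y)` are isomorphic.
Let `R` be an equivalence relation between varieties of the same dimension which is stable under
products: for example derived equivalence.

Which linear combinations of the ranks are invariant under `R`? Let `D` and `d` be natural numbers,
and let `∑ c(i) ρ_i` be a real linear combination in which only the ranks `ρ_i` with `d ≤ i ≤ D - d`
occur, and which is not identically zero in view of `ρ_i = ρ_(D - i)`.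

Theorem.

1. If this single linear combination is invariant under `R` in the single dimension `D`, then all
   `R`-equivalent varieties of dimension at most `d` have isomorphic motives modulo numerical
   equivalence, and isomorphic Chow motives if they are Kimura-finite (for example, if their motives
   are of abelian type). For example, a single rank `ρ_i`, `i ≤ D`, in a single dimension `D` suffices
   for the varieties of dimension at most `min(i, D - i)`.
2. If `𝒱` contains surfaces with the motives `1 + r L + L ^ 2` for arbitrarily large `r` (for example
   iterated blow-ups of the projective plane in rational points) then for the varieties of dimension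
   less than `d` it suffices that the linear combination is almost invariant in dimension `D`: its
   values on `R`-equivalent `Z` and `W` differ by at most `ε ρ(Z) + B(ε)`, for every `ε > 0`, where
   `ρ(Z)` is the sum of all ranks of `Z`.
3. For such a class `𝒱`, all `R`-equivalent varieties have isomorphic motives modulo numerical
   equivalence (Orlov's conjecture modulo numerical equivalence, for the derived equivalence) if and
   only if for every `d` there is such a linear combination which is almost invariant in one
   dimension `D`. So, if this is wrong, there is a number `d` such that, in no dimension `D`, any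
   nontrivial linear combination of the ranks `ρ_i`, `d ≤ i ≤ D - d`, is invariant, or even almost
   invariant.

(The derived invariant `∑ ρ_i`, the rank of the Grothendieck group modulo numerical equivalence,
contains `ρ_0` and `ρ_D`.)

`MiddlePicardNumber` (same problem) treats the middle rank, `D = 2i`, and the varieties of dimension
`i`; there `𝒱` need not contain projective spaces.

The idea of the proof: let `T` be the Tate twist in the Grothendieck group of numerical motives. On
this group there is the positive definite form `⟨M, N⟩ = dim Hom(M, N)`. The values of the linear
combination on the products of `X × X`, `X × Y` and `Y × Y` with the products of two projective spaces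
of total dimension `N = D - 2 dim X` determine the numbers `∑ e(k) ⟨x, T ^ (k - l) x⟩`, `0 ≤ l ≤ N`,
where `x = h(X) - h(Y)` and `e(k) = c(d + k) + c(D - d - k)`, `d = dim X`, `0 ≤ k ≤ N`: there are three
such products with motives of the form `2v - v' - v''` equal to `L ^ j + L ^ (N - j)`. So
`∑ e(k) T ^ k x` has norm zero, hence is zero, and this implies `x = 0`.

Authors: helper64, helper88, helper20, helper71, helper56.
-/

open CategoryTheory AlgebraicGeometry

set_option autoImplicit false

universe u v w

namespace Pool.Agent.Results.MP_5c0b30_ag.EverySingleRank

open Pool.Agent.H914 Pool.Agent.H914.VarClass Pool.Agent.H914.VarClass.Obj Pool.Agent.W492.BB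
  Pool.Agent.TH829.Kim Pool.Agent.P8H64.OO Pool.Agent.P8H64.AC Pool.Agent.P8H64.AN

theorem result {k : Type u} [Field k] {𝒱 : VarClass k} (C : TheoryData.{u, v, 0} 𝒱 ℚ)
    [Pool.Agent.TH133.IsChowProj C] {K : Type w} [Field K] [CharZero K]
    (H : WeilTheoryData.{u, v, w} C K) [IsWeilComm H]
    (hP : ∀ N : ℕ, ∃ P : 𝒱.Obj, IsProjectiveSpace C P N) {R : 𝒱.Obj → 𝒱.Obj → Prop}
    (hR : IsStable R) :
    (∀ (D d : ℕ) (c : ℕ → ℝ), IsDeep c d D → IsNontrivial c D →
      IsInvariant R (fun Z i => (rk C Z i : ℤ)) c D →
      ∀ X Y : 𝒱.Obj, R X Y → X.dim ≤ d → NumIsom C X Y ∧
        (IsKimuraFinite C (ratFam C) X → IsKimuraFinite C (ratFam C) Y → ChowIso C X Y)) ∧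
    ((∀ r : ℕ, ∃ s, r ≤ s ∧ ∃ S : 𝒱.Obj, IsSplitSurface C S s) →
      (∀ (D d : ℕ) (c : ℕ → ℝ), IsDeep c d D → IsNontrivial c D →
        IsAlmostInvariant R (fun Z i => (rk C Z i : ℤ)) c D →
        ∀ X Y : 𝒱.Obj, R X Y → X.dim < d → NumIsom C X Y ∧
          (IsKimuraFinite C (ratFam C) X → IsKimuraFinite C (ratFam C) Y → ChowIso C X Y)) ∧
      ((∀ X Y : 𝒱.Obj, R X Y → NumIsom C X Y) ↔
        ∀ d : ℕ, ∃ (D : ℕ) (c : ℕ → ℝ), IsDeep c d D ∧ IsNontrivial c D ∧
          IsAlmostInvariant R (fun Z i => (rk C Z i : ℤ)) c D)) :=
  law H hP hR

end Pool.Agent.Results.MP_5c0b30_ag.EverySingleRank
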