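import Pool.Agent.P8H64.OO.Final

/-!
# One number decides Orlov's conjecture

`𝒱` is a class of smooth projective geometrically irreducible varieties over the field `k` closed
under products (for example all of them), `C` the Chow groups with rational coefficients (in the
form of their formal properties, `IsChowProj`), and `H` a Weil cohomology theory with coefficients
in a field of characteristic zero (`IsWeilComm`: Poincare duality, Kunneth formula, cycle class
maps, graded-commutativity; no Lefschetz theorem). `ρ_i(X) = rk C X i` is the rank of the group of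
cycles of codimension `i` on `X` modulo numerical equivalence. `NumIsom C X Y` means that the
motives of `X` and `Y` modulo numerical equivalence are isomorphic, `ChowIso C X Y` that their Chow
motives `h(X)` and `h(Y)` are isomorphic.

Theorem.

1. All ranks `ρ_i(X)` are finite.
2. Let `X` and `Y` be varieties of dimension `d`. Then
   `2 ρ_d(X × Y) ≤ ρ_d(X × X) + ρ_d(Y × Y)`, with equality if and only if the numerical motives of
   `X` and `Y` are isomorphic. If `X` and `Y` are Kimura-finite (for example if their motives are of
   abelian type), equality holds if and only if `h(X) ≃ h(Y)`.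
3. Let `R` be an equivalence relation between varieties of the same dimension which is stable under
   products: for example derived equivalence. If the single number `ρ_d` is invariant under `R` in
   dimension `2d`, then `R`-equivalent varieties of dimension `d` have isomorphic numerical motives.
4. The following are equivalent for `R` as in (3):
   * `R`-equivalent varieties have isomorphic numerical motives (Orlov's conjecture modulo
     numerical equivalence, for the derived equivalence);
   * all ranks `ρ_i` are invariant under `R`;
   * the middle rank `ρ_m` is invariant under `R` in dimension `2m`, for all `m`;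
   * `ρ_d(X × X) ≤ ρ_d(X × Y)` for all `R`-equivalent `X` and `Y` of dimension `d`.
5. If all varieties in `𝒱` are Kimura-finite, `R`-equivalent varieties have isomorphic Chow motives
   (for the derived equivalence: Orlov's conjecture Q1 for `𝒱`) if and only if the middle rank
   `ρ_m` is invariant under `R` in dimension `2m`, for all `m`.

So Orlov's conjecture on isomorphisms of motives is a statement about one number. For derived
equivalent varieties the sum of all ranks `ρ_i` is the same (Mukai vectors), and the question is
whether the middle one is.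

The semisimplicity of the category of numerical motives (Jannsen) is not assumed: it is proved here
from the trace formula. The idea of the proof of (2): by semisimplicity
`⟨M, N⟩ = dim Hom(M, N)` is a positive definite symmetric bilinear form on the Grothendieck group of
numerical motives, `ρ_d(X × Y) = ⟨h(X), h(Y)⟩`, and (2) is `⟨h(X) - h(Y), h(X) - h(Y)⟩ ≥ 0`. For (3),
`X × X`, `X × Y` and `Y × Y` are `R`-equivalent if `X` and `Y` are.

Authors: helper64, helper29, helper4, helper85, helper56.
-/

open CategoryTheory AlgebraicGeometry

set_option autoImplicit false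

universe u v w

namespace Pool.Agent.Results.MP_5c0b30_ag.MiddlePicardNumber

open Pool.Agent.H914 Pool.Agent.H914.VarClass Pool.Agent.H914.VarClass.Obj Pool.Agent.W492.BB
  Pool.Agent.TH829.Kim Pool.Agent.P8H64.OO

theorem result {k : Type u} [Field k] {𝒱 : VarClass k} (C : TheoryData.{u, v, 0} 𝒱 ℚ)
    [Pool.Agent.TH133.IsChowProj C] {K : Type w} [Field K] [CharZero K]
    (H : WeilTheoryData.{u, v, w} C K) [IsWeilComm H] :
    (∀ (X : 𝒱.Obj) (i : ℤ), ∃ N : ℕ, ∀ (n : ℕ) (x : Fin n → C.A X), Indep C i x → n ≤ N) ∧
    (∀ X Y : 𝒱.Obj, X.dim = Y.dim →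
      2 * rk C (X.prod Y) X.dim ≤ rk C (X.prod X) X.dim + rk C (Y.prod Y) Y.dim ∧
      (2 * rk C (X.prod Y) X.dim = rk C (X.prod X) X.dim + rk C (Y.prod Y) Y.dim ↔
        NumIsom C X Y) ∧
      (IsKimuraFinite C (ratFam C) X → IsKimuraFinite C (ratFam C) Y →
        (2 * rk C (X.prod Y) X.dim = rk C (X.prod X) X.dim + rk C (Y.prod Y) Y.dim ↔
          ChowIso C X Y))) ∧
    ∀ R : 𝒱.Obj → 𝒱.Obj → Prop, IsStable R →
      (∀ d : ℕ, (∀ Z W : 𝒱.Obj, R Z W → Z.dim = 2 * d → rk C Z d = rk C W d) →
        ∀ X Y : 𝒱.Obj, R X Y → X.dim = d → NumIsom C X Y) ∧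
      List.TFAE [∀ X Y : 𝒱.Obj, R X Y → NumIsom C X Y,
        ∀ X Y : 𝒱.Obj, R X Y → ∀ i : ℤ, rk C X i = rk C Y i,
        ∀ X Y : 𝒱.Obj, R X Y → ∀ m : ℕ, X.dim = 2 * m → rk C X m = rk C Y m,
        ∀ X Y : 𝒱.Obj, R X Y → rk C (X.prod X) X.dim ≤ rk C (X.prod Y) X.dim] ∧
      ((∀ X : 𝒱.Obj, IsKimuraFinite C (ratFam C) X) →
        ((∀ X Y : 𝒱.Obj, R X Y → ChowIso C X Y) ↔
          ∀ X Y : 𝒱.Obj, R X Y → ∀ m : ℕ, X.dim = 2 * m → rk C X m = rk C Y m)) :=
  final H

end Pool.Agent.Results.MP_5c0b30_ag.MiddlePicardNumber
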