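import Pool.Agent.P8H64.ZO.LawFinal

/-!
# Orlov's conjecture and zeta functions: one pole decides

`𝒱` is a class of smooth projective geometrically irreducible varieties over the field `k` closed
under products (for example all of them), `C` the Chow groups with rational coefficients (in the
form of their formal properties, `IsChowProj`), and `H` a Weil cohomology theory with coefficients
in an algebraically closed field `K` of characteristic zero (`IsWeilComm`: Poincare duality, Kunneth
formula, cycle class maps, graded-commutativity; no Lefschetz theorem and no Riemann hypothesis).
For each `X` in `𝒱` let `F_X` be an endomorphism such that `F_(X × Y) = F_X × F_Y` and that the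
push-forward under `F_X` is multiplication by `q ^ j` on the cycles of dimension `j`, `q > 1`: if `k`
is the field with `q` elements, the Frobenius endomorphism. Then `pts C (iter (F X) n)`, the number
of fixed points of the `n`-th iterate, is the number of the points of `X` over the field with
`q ^ n` elements.

Theorem.

1. Rationality: there is a unique function `m_X` on `K` with finite support and integral values,
   zero at zero, such that the number of points of `X` over the field with `q ^ n` elements is
   `∑ m_X(α) α ^ n` for all `n ≥ 1`. So `ord_i(X) = m_X(q ^ i)` is the order of the pole at `s = i`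
   of the zeta function of `X`.
2. Let `X` and `Y` be varieties of dimension `d`. Then, for the orders of the poles at `s = d`,
   `2 ord_d(X × Y) ≤ ord_d(X × X) + ord_d(Y × Y)`, with equality if and only if `X` and `Y` have the
   same zeta function. If (Tate's conjecture) these three orders are the ranks of the groups of cycles
   of codimension `d` modulo numerical equivalence on the three products, then `X` and `Y` have the
   same zeta function if and only if their motives modulo numerical equivalence are isomorphic (if
   and only if their Chow motives are isomorphic, if `X` and `Y` are Kimura-finite).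

Let `R` be an equivalence relation between varieties of the same dimension which is stable under
products: for example derived equivalence.

3. The following are equivalent:
   * `R`-equivalent varieties have the same zeta function;
   * the orders of the poles at all integers are invariant under `R`;
   * the order of the pole at `s = m` is invariant under `R` in dimension `2m`, for all `m`;
   * `ord_d(X × X) ≤ ord_d(X × Y)` for all `R`-equivalent `X` and `Y` of dimension `d`.
4. Let `𝒱` contain varieties with the motives of the projective spaces, let `D` and `d` be natural
   numbers, and let `∑ c(i) ord_i` be a real linear combination in which only the `ord_i` with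
   `d ≤ i ≤ D - d` occur and which is not identically zero in view of the functional equation
   `ord_i = ord_(D - i)`. If this single linear combination is invariant under `R` in the single
   dimension `D`, then all `R`-equivalent varieties of dimension at most `d` have the same zeta
   function. For example, the order of one pole, at `s = i ≤ D`, in one dimension `D` decides for the
   varieties of dimension at most `min(i, D - i)`.
5. If, moreover, `𝒱` contains surfaces with the motives `1 + r L + L ^ 2` for arbitrarily large `r`
   (for example iterated blow-ups of the projective plane in rational points) then for the varieties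
   of dimension less than `d` it suffices that the linear combination is almost invariant in
   dimension `D`: its values on `R`-equivalent `Z` and `W` differ by at most
   `ε ∑ |ord_i(Z)| + B(ε)`, for every `ε > 0`. And `R`-equivalent varieties have the same zeta
   function if and only if for every `d` there is such a linear combination which is almost invariant
   in one dimension `D`.

That derived equivalent varieties over a finite field have the same zeta function is a consequence
of Orlov's conjecture which, as far as we know, is open in general from dimension four on. For
derived equivalent varieties the sum of the orders of all poles is the same (Mukai vectors); by (4)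
it is all or nothing for the linear combinations which do not contain the poles at `s < d` and
`s > D - d`.

The idea of the proof: by Poincare duality `m_Y(q ^ d / α) = m_Y(α)`, so that
`ord_d(X × Y) = ∑ m_X(α) m_Y(α)`, and (2) is `∑ (m_X(α) - m_Y(α)) ^ 2 ≥ 0`. For (3), `X × X`, `X × Y`
and `Y × Y` are `R`-equivalent if `X` and `Y` are. For (4), the poles of the zeta functions of the
products of these varieties with the products of two projective spaces determine
`∑ (∑ e(k) x(q ^ k α)) ^ 2`, `x = m_X - m_Y`, `e(k) = c(dim X + k) + c(D - dim X - k)`.

Authors: helper64, helper56, helper85, helper20, helper88.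
-/

open CategoryTheory AlgebraicGeometry

set_option autoImplicit false

universe u v w

namespace Pool.Agent.Results.MP_5c0b30_ag.OnePoleDecides

open Pool.Agent.H914 Pool.Agent.H914.VarClass Pool.Agent.H914.VarClass.Obj Pool.Agent.W492.BB
  Pool.Agent.TH829.Kim Pool.Agent.P8H64.OO Pool.Agent.P8H64.ZO Pool.Agent.P8H64.AC
  Pool.Agent.P8H64.AN

theorem result {k : Type u} [Field k] {𝒱 : VarClass k} (C : TheoryData.{u, v, 0} 𝒱 ℚ)
    [Pool.Agent.TH133.IsChowProj C] {K : Type w} [Field K] [CharZero K] [IsAlgClosed K]
    (H : WeilTheoryData.{u, v, w} C K) [IsWeilComm H] {q : ℕ} (hq : 1 < q)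
    {F : ∀ X : 𝒱.Obj, X ⟶ X} (hF : IsFrobenius C q F) :
    (∀ X : 𝒱.Obj, ∃! m : K →₀ ℤ, IsZeta C F X m) ∧
    (∀ X Y : 𝒱.Obj, X.dim = Y.dim →
      2 * poleOrder C K q F (X.prod Y) X.dim ≤
        poleOrder C K q F (X.prod X) X.dim + poleOrder C K q F (Y.prod Y) Y.dim ∧
      (2 * poleOrder C K q F (X.prod Y) X.dim =
        poleOrder C K q F (X.prod X) X.dim + poleOrder C K q F (Y.prod Y) Y.dim ↔
        SameZeta C F X Y) ∧
      (poleOrder C K q F (X.prod X) X.dim = rk C (X.prod X) X.dim →
        poleOrder C K q F (X.prod Y) X.dim = rk C (X.prod Y) X.dim →
        poleOrder C K q F (Y.prod Y) Y.dim = rk C (Y.prod Y) Y.dim →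
        (NumIsom C X Y ↔ SameZeta C F X Y) ∧
        (IsKimuraFinite C (ratFam C) X → IsKimuraFinite C (ratFam C) Y →
          (ChowIso C X Y ↔ SameZeta C F X Y)))) ∧
    ∀ R : 𝒱.Obj → 𝒱.Obj → Prop, IsStable R →
      List.TFAE [∀ X Y : 𝒱.Obj, R X Y → SameZeta C F X Y,
        ∀ X Y : 𝒱.Obj, R X Y → ∀ i : ℕ, poleOrder C K q F X i = poleOrder C K q F Y i,
        ∀ X Y : 𝒱.Obj, R X Y → ∀ m : ℕ, X.dim = 2 * m →
          poleOrder C K q F X m = poleOrder C K q F Y m,
        ∀ X Y : 𝒱.Obj, R X Y →
          poleOrder C K q F (X.prod X) X.dim ≤ poleOrder C K q F (X.prod Y) X.dim] ∧
      ((∀ N : ℕ, ∃ P : 𝒱.Obj, IsProjectiveSpace C P N) →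
        (∀ (D d : ℕ) (c : ℕ → ℝ), IsDeep c d D → IsNontrivial c D →
          IsInvariant R (poleOrder C K q F) c D →
          ∀ X Y : 𝒱.Obj, R X Y → X.dim ≤ d → SameZeta C F X Y) ∧
        ((∀ r : ℕ, ∃ s, r ≤ s ∧ ∃ S : 𝒱.Obj, IsSplitSurface C S s) →
          (∀ (D d : ℕ) (c : ℕ → ℝ), IsDeep c d D → IsNontrivial c D →
            IsAlmostInvariant R (poleOrder C K q F) c D →
            ∀ X Y : 𝒱.Obj, R X Y → X.dim < d → SameZeta C F X Y) ∧
          ((∀ X Y : 𝒱.Obj, R X Y → SameZeta C F X Y) ↔
            ∀ d : ℕ, ∃ (D : ℕ) (c : ℕ → ℝ), IsDeep c d D ∧ IsNontrivial c D ∧
              IsAlmostInvariant R (poleOrder C K q F) c D))) :=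
  poleLaw H hq hF

end Pool.Agent.Results.MP_5c0b30_ag.OnePoleDecides
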