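import Pool.Agent.P8H30.OR.Fin

/-!
# Orlov's conjecture for equivalences commuting with semiample classes

Let `X` and `Y` be smooth projective complex varieties of dimension `n` with equivalent derived
categories, `v = ch(E) √td(X × Y)` the class of the kernel `E` of an equivalence, a sum of cycles of
all codimensions on `X × Y`, and `w` the class of the kernel of the inverse equivalence
(`IsDerivedPair`; correspondences and their action on cohomology with its Hodge structure are
described by their formal properties, `CycTheory`, as in `LowDimension`). The equivalence commutes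
with the Serre functors, so that `v` commutes with the first Chern classes; we suppose that it
commutes with divisor classes `L` on `X` and `L'` on `Y`, too (`Commutes`). This is true for
`L = ± m K_X`, `L' = ± m K_Y`, and for the pull-backs of an ample class of `B` if `X` and `Y` are
varieties over the projective variety `B` and the equivalence is relative over `B`.

Suppose that `X` satisfies the standard conjecture of Lefschetz type. `T.Iso X Y m` means that there
are correspondences of degree zero which act as inverse isomorphisms `H^m(X) ≃ H^m(Y)`: an
isomorphism `h^m(X) ≃ h^m(Y)` of homological motives.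

* **Small defect.** If `L` and `L'` are pull-backs of ample classes by morphisms of defect of
  semismallness at most two (`DefectTwo`; for example the fibres have dimension at most two and are
  equidimensional) then the homological motives of `X` and `Y` are isomorphic; and the Chow motives
  are isomorphic if moreover homologically trivial self-correspondences of `X` or of `Y` are
  nilpotent, for example if `X` is Kimura-finite. The dimension `n` is arbitrary. If the defect is
  zero, the classes satisfy hard Lefschetz, and this is `LefschetzCanonicalClasses`.
* **Holomorphic forms.** Let `L`, `L'` be represented by semipositive forms (`Semipositive`), for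
  example pull-backs of ample classes by arbitrary morphisms. Nothing is assumed on the fibres. Then
  for all `p ≤ n - 2` the spaces `H^{p,0}` modulo the forms killed by `L ^ (n - 2 - p)` are
  isomorphic by algebraic cycles of degree zero (`FormsIso`: the cycles kill the killed forms, and
  their compositions are the identity modulo killed forms), and if `L ^ (n - 2) ≠ 0` (the images
  of the morphisms have codimension at most two in `X` and `Y`) the spaces `H^{p,0}` themselves,
  as no form is killed.
* **The second motive.** In this situation, if `n ≥ 4` and `L ^ (n - 2) ≠ 0`, or if the 2-forms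
  killed by `L ^ (n - 4)` are isomorphic by cycles (`KilledIso`), then `h^2(X) ≃ h^2(Y)` as soon as
  `h^{1,1}(X) = h^{1,1}(Y)`. The theorem of Lefschetz on classes of type `(1, 1)` is used. Similarly
  `h^1(X) ≃ h^1(Y)` (for this, see also Popa and Schnell).
* **Fivefolds.** Let `n = 5` and let `L`, `L'` be semipositive, and `L ^ 3 ≠ 0`; or `h^1(X) ≃ h^1(Y)`
  (Popa and Schnell) and the 2-forms killed by `L` are isomorphic by cycles. Suppose that `X` and
  `Y` have the same Chern number `e = c_1 c_4`, in the form of the formula of Libgober and Wood
  (`LibgoberWood`). Then the homological motives of `X` and `Y` are isomorphic, and the Chow motives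
  in the Kimura-finite case. So Orlov's conjecture holds in this form for the fivefolds with
  semiample canonical or anticanonical bundle of numerical dimension at least three: the Chern
  numbers `c_1 c_4` agree by a theorem of Toda on the restriction of equivalences to complete
  intersections of general members of `|m K|` (see `SemiampleFivefolds` for MP_b4fe5e_ag). If the
  numerical dimension is two the 2-forms killed by `L` come from the common (anti)canonical model.

As in `LowDimension`, the theorem can be applied to motivated cycles, for which the standard
conjecture is known (André), and gives unconditional isomorphisms of motives for motivated cycles,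
in particular isomorphisms of Hodge structures `H^m(X, ℚ) ≃ H^m(Y, ℚ)`.

Proof. Let `E` be the semisimple algebra of algebraic self-correspondences of `X`, which acts on the
cohomology of `Y`, too, and `S` a left ideal of `E`. One compares the dimensions of `p_m S` for the
Künneth projectors `p_m` of `X` and `Y`. For vectors `x` of `S` and test classes `h`, the hermitian
forms `∫ L ^ k (x h) bar (x h)` are invariant up to the signs of the Hodge-Riemann relations. For
defect two they are, on the vectors from degrees at most `n - 2 - k`, sums of a positive and of a
negative definite part, on subspaces of `S` defined over `ℚ`, so that the dimensions of rational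
subspaces of `S` can be compared without a simultaneous diagonalisation; this gives `2 n + 1`
relations, which determine the dimensions. For semipositive classes only the part of the motives
with holomorphic `p`-forms can be compared, by the central idempotent which belongs to these forms.
The complementary part of `h^2` is a sum of Lefschetz motives, and is determined by its rank.
-/

open CategoryTheory

set_option autoImplicit false

universe u v

namespace Pool.Agent.Results.MP_5c0b30_ag.SemiampleClasses

open Pool.Agent.N174.OC Pool.Agent.R929.DH Pool.Agent.P8H56.DH Pool.Agent.P8H30.OR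

/-- Orlov's conjecture for equivalences commuting with classes of defect at most two or with
semipositive classes. -/
theorem result :
    (∀ (𝒪 : Type u) [Category.{v} 𝒪] [Preadditive 𝒪] [Linear ℚ 𝒪] (n : ℕ) (T : CycTheory 𝒪 n)
      (X Y : 𝒪) (v : X ⟶ Y) (w : Y ⟶ X) (L : (T.K X).R) (L' : (T.K Y).R),
      T.ConjB X → T.IsDerivedPair v w → Commutes T v L L' →
      (DefectTwo (T.K X) L → DefectTwo (T.K Y) L' →
        (∀ m, T.Iso X Y m) ∧ T.HomIso X Y ∧
          (T.HomNilpotent X ∨ T.HomNilpotent Y → T.ChowIso X Y)) ∧
      (Semipositive (T.K X) L → Semipositive (T.K Y) L' →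
        (∀ p k : ℕ, p + k + 2 = n → FormsIso T L L' k p) ∧
        (∀ m p : ℕ, m + 2 = n → L ^ m ≠ 0 → p ≤ m → FormsIso T L L' 0 p) ∧
        (∀ k : ℕ, k + 3 = n → L ^ (k + 1) ≠ 0 ∨ KilledIso T L L' k 1 → T.Iso X Y 1) ∧
        ∀ k : ℕ, k + 4 = n → L ^ (k + 2) ≠ 0 ∨ KilledIso T L L' k 2 → Lefschetz T X →
          Lefschetz T Y → (T.K X).h 1 1 = (T.K Y).h 1 1 → T.Iso X Y 2)) ∧
    ∀ (𝒪 : Type u) [Category.{v} 𝒪] [Preadditive 𝒪] [Linear ℚ 𝒪] (T : CycTheory 𝒪 5)
      (X Y : 𝒪) (v : X ⟶ Y) (w : Y ⟶ X) (L : (T.K X).R) (L' : (T.K Y).R),
      T.ConjB X → T.IsDerivedPair v w → Commutes T v L L' →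
      Semipositive (T.K X) L → Semipositive (T.K Y) L' →
      L ^ 3 ≠ 0 ∨ T.Iso X Y 1 ∧ KilledIso T L L' 1 2 → Lefschetz T X → Lefschetz T Y →
      ∀ e : ℤ, LibgoberWood (T.K X) e → LibgoberWood (T.K Y) e →
        (∀ m, T.Iso X Y m) ∧ T.HomIso X Y ∧
          (T.HomNilpotent X ∨ T.HomNilpotent Y → T.ChowIso X Y) := by
  refine ⟨fun 𝒪 _ _ _ n T X Y v w L L' hB h hc => ⟨fun hX hY => ?_, fun hX hY =>
    ⟨fun p k hk => forms_iso T hB h hc hX hY hk, fun m p hm hL hp => ?_,
      fun k hk hK => iso_one T hB h hc hX hY hk hK,
      fun k hk hK h1 h2 h3 => iso_deg_two T hB h hc hX hY hk hK h1 h2 h3⟩⟩,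
    fun 𝒪 _ _ _ T X Y v w L L' hB h hc hX hY hK h1 h2 e h3 h4 => ?_⟩
  · have hI := defect_two T hB h hc hX hY
    exact ⟨hI, out T hB h hI⟩
  · obtain ⟨Z, hZ, Z', hZ', h1, h2⟩ := forms_full T hB h hc hX hY hm hL hp
    refine ⟨Z, hZ, Z', hZ', fun x hx => by rw [h1 x hx], fun y hy => by rw [h2 y hy],
      fun x hx => ?_, fun y hy => ?_⟩
    · have h3 := (mem_killed.1 hx).2
      rw [pow_zero, one_mul] at h3
      rw [h3]
      exact (T.lin.act Z).map_zero
    · have h3 := (mem_killed.1 hy).2
      rw [pow_zero, one_mul] at h3
      rw [h3]
      exact (T.lin.act Z').map_zero
  · have hI := five T hB h hc hX hY hK h1 h2 h3 h4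
    exact ⟨hI, out T hB h hI⟩

end Pool.Agent.Results.MP_5c0b30_ag.SemiampleClasses
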